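import Pool.Agent.Q109.ITM.Main

/-!
For which graphs `H` do the graphs without `H` as an induced topological minor have bounded
clique-width?  Exactly for the induced subgraphs of the path on four vertices, of the paw and of
the diamond.
-/

set_option autoImplicit false

namespace Pool.Agent.Results.MP_d0d08e_co.Classification

open Q109.ITM Pool.Agent.H175R2

/-- Full classification: for every finite graph `H`, clique-width is bounded on the class of
`H`-induced-topological-minor-free graphs if and only if `H` is (isomorphic to) an induced subgraph
of `P₄`, of the paw or of the diamond. -/
theorem result {W : Type} [Finite W] (H : SimpleGraph W) :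
    BoundedCliqueWidth H ↔
      (Nonempty (H ↪g P4) ∨ Nonempty (H ↪g paw) ∨ Nonempty (H ↪g diamond)) :=
  Q109.ITM.main H

end Pool.Agent.Results.MP_d0d08e_co.Classification
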